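import Pool.Agent.X170.Core.Line

/-!
# A compact set whose nucleus is not contained in its core
-/

set_option autoImplicit false
set_option linter.unusedVariables false

open Set Topology Filter Complex Manifold
open scoped ContDiff

namespace Pool.Agent.Results.MP_60ed70_an.NucleusNotCore

open Pool.Agent.X170.Core Pool.Agent.X170.Core.Line Pool.Agent.X170.PN

/-- the function `|x|² + ε k(x) |t|²` in the chart 0 -/
noncomputable def G (ε : ℝ) (z : EE) : ℝ := ‖z.2‖ ^ 2 + ε * FF z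

theorem G_smooth (ε : ℝ) : ContDiff ℝ ∞ (G ε) :=
  (contDiff_sq.comp contDiff_snd).add (contDiff_const.mul FF_smooth)

theorem levi_sq2 (z v : EE) : levi (fun z : EE => ‖z.2‖ ^ 2) z v = ‖v.2‖ ^ 2 := by
  have h : ∀ v : EE, dd (fun z : EE => ‖z.2‖ ^ 2) z v = 2 * ‖v.2‖ ^ 2 := by
    intro v
    have h1 : dd (fun z : EE => ‖z.2‖ ^ 2) z v = dd (fun x : ℂ => ‖x‖ ^ 2) z.2 v.2 := rfl
    rw [h1, dd_sq]
  unfold levi
  rw [h, h]
  simp only [Prod.smul_snd, smul_eq_mul, norm_mul, norm_I, one_mul]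
  ring

theorem levi_G (ε : ℝ) (z v : EE) : levi (G ε) z v = ‖v.2‖ ^ 2 + ε * levi FF z v := by
  have h1 : ContDiffAt ℝ 2 (fun z : EE => ‖z.2‖ ^ 2) z :=
    ((contDiff_sq.comp contDiff_snd).of_le two_le).contDiffAt
  have h2 : ContDiffAt ℝ 2 (fun z : EE => ε * FF z) z :=
    ((contDiff_const.mul FF_smooth).of_le two_le).contDiffAt
  have h3 : levi (G ε) z v = levi (fun z : EE => ‖z.2‖ ^ 2) z v + levi (fun z : EE => ε * FF z) z v :=
    levi_add h1 h2 v
  have h4 : levi (fun z : EE => ε * FF z) z v = ε * levi FF z v := by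
    have h5 : ∀ v, dd (fun z : EE => ε * FF z) z v = ε * dd FF z v := by
      intro v
      unfold dd
      exact iteratedDeriv_const_mul_field ε _
    unfold levi
    rw [h5, h5]
    ring
  rw [h3, h4, levi_sq2]

/-- The function on `ℙ¹ × ℂ`. -/
noncomputable def phi (ε : ℝ) (p : MM) : ℝ := G ε (cmap 0 p.1, p.2)

/-- The neighbourhood of the compact set. -/
def UU : Set MM := {p | 3 / 4 < ‖p.2‖} ∪ {p | p.1 ∈ cdom 1 0 ∧ ‖cmap 0 p.1 0‖ < 1}

theorem isOpen_UU : IsOpen UU := by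
  have h1 : IsOpen {p : PSpace 1 × ℂ | 3 / 4 < ‖p.2‖} :=
    isOpen_lt continuous_const continuous_snd.norm
  have h2 : IsOpen {q : PSpace 1 | q ∈ cdom 1 0 ∧ ‖cmap 0 q 0‖ < 1} := by
    have h3 : ContinuousOn (fun q : PSpace 1 => ‖cmap 0 q 0‖) (cdom 1 0) :=
      ((continuous_apply 0).comp_continuousOn (cont_cmap 0)).norm
    exact h3.isOpen_inter_preimage (isOpen_cdom 0) isOpen_Iio
  have h4 : IsOpen {p : PSpace 1 × ℂ | p.1 ∈ cdom 1 0 ∧ ‖cmap 0 p.1 0‖ < 1} :=
    h2.preimage continuous_fst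
  exact h1.union h4

theorem KK_sub_UU : KK ⊆ UU := by
  rintro p (h | h)
  · left
    show 3 / 4 < ‖p.2‖
    rw [show ‖p.2‖ = 1 from h]
    norm_num
  · right
    refine ⟨?_, ?_⟩
    · rw [h.1]; exact cinv_mem 0 0
    · rw [h.1]
      unfold p0
      rw [c_right]
      simp

theorem phi_symm (ε : ℝ) (i : Fin 2) : phi ε ∘ (ch i).symm = fun z => G ε (TT i 0 z) := rfl

/-- near the points with `3/4 < |x|` the function is `|x|²` -/
theorem phi_near (ε : ℝ) (i : Fin 2) {z : EE} (hz : 3 / 4 < ‖z.2‖) :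
    (fun z => G ε (TT i 0 z)) =ᶠ[𝓝 z] fun z : EE => ‖z.2‖ ^ 2 := by
  have h1 : ∀ᶠ y : EE in 𝓝 z, 3 / 4 < ‖y.2‖ :=
    continuous_snd.norm.continuousAt.eventually (lt_mem_nhds hz)
  filter_upwards [h1] with y hy
  show ‖y.2‖ ^ 2 + ε * (kk y.2 * ‖(TT i 0 y).1 0‖ ^ 2) = ‖y.2‖ ^ 2
  have : kk y.2 = 0 := by
    unfold kk
    rw [bump_zero _ hy]
    ring
  rw [this]
  ring

theorem main {ε : ℝ} (hε : 0 < ε) (hε' : ∀ z v : EE, ‖z.1 0‖ < 1 → 0 ≤ levi (G ε) z v) :
    IsPshOn EE UU (phi ε) := by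
  have key : ∀ (i : Fin 2) (z : EE), z ∈ (ch i).target ∩ (ch i).symm ⁻¹' UU →
      ContDiffAt ℝ ∞ (fun z => G ε (TT i 0 z)) z ∧
        ∀ ξ : EE, 0 ≤ levi (fun z => G ε (TT i 0 z)) z ξ := by
    rintro i z ⟨-, hz | hz⟩
    · have hz' : 3 / 4 < ‖z.2‖ := hz
      have he := phi_near ε i hz'
      refine ⟨?_, fun ξ => ?_⟩
      · exact ((contDiff_sq.comp contDiff_snd).contDiffAt).congr_of_eventuallyEq he
      · have h1 : levi (fun z => G ε (TT i 0 z)) z ξ = levi (fun z : EE => ‖z.2‖ ^ 2) z ξ := by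
          unfold levi
          rw [dd_congr he, dd_congr he]
        rw [h1, levi_sq2]
        positivity
    · have hz' : cinv i z.1 ∈ cdom 1 0 ∧ ‖cmap 0 (cinv i z.1) 0‖ < 1 := hz
      have hne := (trans_mem i 0 z.1).1 hz'.1
      have hT := TT_smooth i 0 hne
      have hTr : ContDiffAt ℝ ω (TT i 0) z := hT.restrict_scalars ℝ
      have hG : ContDiffAt ℝ ∞ (G ε) (TT i 0 z) := (G_smooth ε).contDiffAt
      refine ⟨ContDiffAt.comp (g := G ε) z hG (hTr.of_le le_top), fun ξ => ?_⟩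
      have h1 : ∀ᶠ y in 𝓝 z, DifferentiableAt ℂ (TT i 0) y := by
        have h2 : ContDiffAt ℂ (1 : ℕ) (TT i 0) z := hT.of_le le_top
        filter_upwards [h2.eventually (by simp)] with y hy
        exact hy.differentiableAt (by simp)
      rw [levi_comp (((G_smooth ε).of_le two_le).contDiffAt) h1]
      exact hε' _ _ hz'.2
  constructor
  · rintro e ⟨i, rfl⟩ z hz
    rw [phi_symm]
    exact (key i z hz).1.contDiffWithinAt
  · rintro e ⟨i, rfl⟩ z hz ξ
    rw [phi_symm]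
    exact (key i z hz).2 ξ

theorem strict {ε : ℝ} (hε : 0 < ε) : IsStrictlyPshAt EE (phi ε) ((p0, 0) : MM) := by
  rintro e ⟨i, rfl⟩ he ξ hξ
  have hi : i = 0 := by
    by_contra hne
    have hi1 : i = 1 := by omega
    subst hi1
    have h1 : cinv 0 (0 : Fin 1 → ℂ) ∈ cdom 1 1 := (ch_source 1 _).1 he
    rw [trans_mem] at h1
    apply h1
    have h2 : (lin (0 : Fin 2) (0 : Fin 1 → ℂ) + Pi.single 0 1 : Fin 2 → ℂ) 1 = 0 := by
      rw [map_zero, zero_add]
      simp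
    exact h2
  subst hi
  have h1 : phi ε ∘ (ch 0).symm = G ε := by
    rw [phi_symm]
    funext z
    have : TT 0 0 z = z := Prod.ext (c_right 0 z.1) rfl
    rw [this]
  have h2 : ch 0 ((p0, 0) : MM) = (0, 0) := Prod.ext (c_right 0 0) rfl
  rw [h1, h2, levi_G]
  have h3 : levi FF ((0, 0) : EE) ξ = ‖ξ.1 0‖ ^ 2 := by
    unfold levi
    rw [dd_FF, dd_FF]
    have hk : kk (0 : ℂ) = 1 := by
      unfold kk
      rw [bump_one _ (by norm_num)]
      ring
    have e1 : (I • ξ).1 0 = I * ξ.1 0 := rfl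
    simp only [Pi.zero_apply, norm_zero, Complex.zero_re, Complex.zero_im, hk, e1, norm_mul, norm_I]
    ring
  rw [h3]
  by_cases h4 : ξ.2 = 0
  · have h5 : ξ.1 0 ≠ 0 := by
      intro h5
      apply hξ
      refine Prod.ext (funext fun j => ?_) h4
      rw [Subsingleton.elim j 0]
      exact h5
    have := norm_pos_iff.2 h5
    positivity
  · have := norm_pos_iff.2 h4
    positivity

/-- **Negative answer.** There are a connected complex surface `M` (Hausdorff, with a countable basis), a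
compact set `K ⊆ M` which is equal to its nucleus, and a point `x` of `K` which does not belong to the
core of `K`. (In the proof `M = ℙ¹ × ℂ` and `K` is the union of `ℙ¹ × S¹` and of a closed disc
`{t₀} × {|x| ≤ 1}`.) -/
theorem result : ∃ (E : Type) (_ : NormedAddCommGroup E) (_ : NormedSpace ℂ E)
    (_ : FiniteDimensional ℂ E) (M : Type) (_ : TopologicalSpace M) (_ : T2Space M)
    (_ : SecondCountableTopology M) (_ : ConnectedSpace M) (_ : ChartedSpace E M)
    (_ : IsManifold 𝓘(ℂ, E) ω M), Module.finrank ℂ E = 2 ∧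
    ∃ K : Set M, IsCompact K ∧ nucleus E K = K ∧ ∃ x ∈ nucleus E K, x ∉ coreOf E K := by
  refine ⟨EE, inferInstance, inferInstance, inferInstance, MM, inferInstance, inferInstance,
    inferInstance, inferInstance, inferInstance, inferInstance, by simp, KK, isCompact_KK, ?_⟩
  have hnuc := nucleus_eq (E := EE) (M := MM) (by simp) isCompact_KK hasDisc_KK
  refine ⟨hnuc, ((p0, 0) : MM), ?_, ?_⟩
  · rw [hnuc]
    refine Or.inr ⟨rfl, ?_⟩
    show ‖(0 : ℂ)‖ ≤ 1
    simp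
  · rintro ⟨-, hno⟩
    obtain ⟨B, hB, hB'⟩ := exists_bound1
    obtain ⟨C, hC, hC'⟩ := exists_bound2
    set D : ℝ := 4 * B ^ 2 + C / 2 with hD
    have hD0 : 0 ≤ D := by positivity
    set ε : ℝ := 1 / (D + 1) with hε
    have hε0 : 0 < ε := by positivity
    have hεD : ε * D ≤ 1 := by
      rw [hε, one_div, inv_mul_le_iff₀ (by positivity)]
      linarith
    refine hno ⟨UU, phi ε, isOpen_UU, KK_sub_UU, main hε0 fun z v hz => ?_, strict hε0⟩
    rw [levi_G]
    have h1 := levi_FF_ge hB hB' hC hC' z v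
    rw [← hD] at h1
    have h2 : ‖z.1 0‖ ^ 2 ≤ 1 := by nlinarith [norm_nonneg (z.1 0)]
    have h3 : D * ‖z.1 0‖ ^ 2 * ‖v.2‖ ^ 2 ≤ D * 1 * ‖v.2‖ ^ 2 := by gcongr
    have h4 : ε * (D * ‖v.2‖ ^ 2) ≤ ‖v.2‖ ^ 2 := by
      have h5 := mul_le_mul_of_nonneg_right hεD (by positivity : (0 : ℝ) ≤ ‖v.2‖ ^ 2)
      linarith
    have h6 : ε * (-(D * ‖v.2‖ ^ 2)) ≤ ε * levi FF z v := by
      refine mul_le_mul_of_nonneg_left ?_ hε0.le
      linarith
    linarith

end Pool.Agent.Results.MP_60ed70_an.NucleusNotCore
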